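import Pool.Agent.N889.AO.Stm

/-!
# AO/UNI: a unit of a real Galois field whose conjugates satisfy only the norm relation
-/

set_option autoImplicit false

namespace Pool.Agent.N400.AO

open NumberField

/-- **UNI** -/
theorem stmUni : Pool.Agent.N889.AO.StmUni := by
  intro K _ _ _ φ
  classical
  set φc : K →+* ℂ := Complex.ofRealHom.comp φ with hφc
  obtain ⟨u, hu⟩ := NumberField.Units.dirichletUnitTheorem.exists_unit (K := K)
    (InfinitePlace.mk φc)
  set u0 : K := ((u : 𝓞 K) : K) with hu0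
  have hu0' : u0 ≠ 0 := NumberField.Units.coe_ne_zero u
  set b : (K ≃ₐ[ℚ] K) → ℝ := fun ρ => Real.log (φ (ρ u0)) with hb
  have hφinj : Function.Injective φ := φ.injective
  have hne : ∀ ρ : K ≃ₐ[ℚ] K, φ (ρ u0) ≠ 0 := fun ρ h => by
    rw [map_eq_zero, map_eq_zero] at h
    exact hu0' h
  have hneg : ∀ ρ : K ≃ₐ[ℚ] K, ρ ≠ 1 → b ρ < 0 := by
    intro ρ hρ
    have h1 := hu (InfinitePlace.mk (φc.comp (ρ : K →+* K))) (by
      intro h
      apply hρ
      rw [InfinitePlace.mk_eq_iff] at h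
      ext x
      rw [AlgEquiv.one_apply]
      apply hφinj
      rcases h with h | h
      · have h2 := RingHom.congr_fun h x
        exact Complex.ofReal_injective h2
      · have h2 := RingHom.congr_fun h x
        rw [ComplexEmbedding.conjugate_coe_eq] at h2
        have h3 : (starRingEnd ℂ) ((φc.comp (ρ : K →+* K)) x) = ((φ (ρ x) : ℝ) : ℂ) :=
          Complex.conj_ofReal _
        rw [h3] at h2
        exact Complex.ofReal_injective h2)
    rw [InfinitePlace.apply] at h1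
    have h2 : ‖(φc.comp (ρ : K →+* K)) u0‖ = |φ (ρ u0)| := by
      have h3 : (φc.comp (ρ : K →+* K)) u0 = ((φ (ρ u0) : ℝ) : ℂ) := rfl
      rw [h3, Complex.norm_real, Real.norm_eq_abs]
    rw [hb]
    change Real.log (φ (ρ u0)) < 0
    rw [← Real.log_abs, ← h2]
    exact h1
  have hsum : ∑ ρ : K ≃ₐ[ℚ] K, b ρ = 0 := by
    rw [hb, ← Real.log_prod (fun ρ _ => hne ρ), ← map_prod]
    have h1 := Algebra.norm_eq_prod_automorphisms ℚ u0
    rw [← h1]
    have h2 : φ (algebraMap ℚ K (Algebra.norm ℚ u0)) = ((Algebra.norm ℚ u0 : ℚ) : ℝ) := by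
      rw [eq_ratCast, map_ratCast]
    rw [h2, ← Real.log_abs]
    have h3 : |(Algebra.norm ℚ u0 : ℚ)| = 1 := NumberField.Units.norm K u
    have h4 : |((Algebra.norm ℚ u0 : ℚ) : ℝ)| = 1 := by
      rw [← Rat.cast_abs, h3, Rat.cast_one]
    rw [h4, Real.log_one]
  refine ⟨u0, NumberField.RingOfIntegers.isIntegral_coe _, ?_, hu0', fun m hm => ?_⟩
  · have h1 : u0⁻¹ = (((u⁻¹ : (𝓞 K)ˣ) : 𝓞 K) : K) := by
      refine inv_eq_of_mul_eq_one_right ?_
      rw [hu0, ← map_mul, ← Units.val_mul, mul_inv_cancel, Units.val_one, map_one]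
    rw [h1]
    exact NumberField.RingOfIntegers.isIntegral_coe _
  · obtain ⟨σ₀, hσ₀⟩ := Finite.exists_max m
    have h1 := hm σ₀⁻¹
    have h2 : φ (σ₀⁻¹ (∏ σ : K ≃ₐ[ℚ] K, (σ u0) ^ (m σ))) =
        ∏ σ : K ≃ₐ[ℚ] K, (φ ((σ₀⁻¹ * σ) u0)) ^ (m σ) := by
      rw [map_prod, map_prod]
      refine Finset.prod_congr rfl fun σ _ => ?_
      rw [map_zpow₀, map_zpow₀]
      rfl
    rw [h2] at h1
    have h3 := congrArg Real.log h1
    rw [Real.log_abs, Real.log_one, Real.log_prod (fun σ _ => zpow_ne_zero _ (hne _))] at h3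
    have h4 : ∑ σ : K ≃ₐ[ℚ] K, (m σ : ℝ) * b (σ₀⁻¹ * σ) = 0 := by
      rw [← h3]
      exact Finset.sum_congr rfl fun σ _ => (Real.log_zpow _ _).symm
    have h5 : ∑ σ : K ≃ₐ[ℚ] K, b (σ₀⁻¹ * σ) = 0 := by
      rw [← hsum]
      exact Equiv.sum_comp (Equiv.mulLeft σ₀⁻¹) b
    have h6 : ∑ σ : K ≃ₐ[ℚ] K, ((m σ : ℝ) - m σ₀) * b (σ₀⁻¹ * σ) = 0 := by
      simp_rw [sub_mul]
      rw [Finset.sum_sub_distrib, h4, ← Finset.mul_sum, h5, mul_zero, sub_zero]
    have hone : ∀ σ : K ≃ₐ[ℚ] K, σ ≠ σ₀ → b (σ₀⁻¹ * σ) < 0 := fun σ h =>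
      hneg _ fun h' => h (by
        rw [inv_mul_eq_one] at h'
        exact h'.symm)
    have h7 : ∀ σ ∈ (Finset.univ : Finset (K ≃ₐ[ℚ] K)),
        0 ≤ ((m σ : ℝ) - m σ₀) * b (σ₀⁻¹ * σ) := by
      intro σ _
      by_cases h : σ = σ₀
      · rw [h, sub_self, zero_mul]
      · have h8 : (m σ : ℝ) ≤ m σ₀ := by exact_mod_cast hσ₀ σ
        exact mul_nonneg_of_nonpos_of_nonpos (by linarith) (hone σ h).le
    have h8 := (Finset.sum_eq_zero_iff_of_nonneg h7).1 h6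
    have h9 : ∀ σ, m σ = m σ₀ := by
      intro σ
      by_cases h : σ = σ₀
      · rw [h]
      · have h10 := h8 σ (Finset.mem_univ _)
        rcases mul_eq_zero.1 h10 with h11 | h11
        · exact_mod_cast sub_eq_zero.1 h11
        · exact absurd h11 (hone σ h).ne
    intro σ τ
    rw [h9 σ, h9 τ]

end Pool.Agent.N400.AO
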